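import Pool.Agent.H63.SFA.Low
import Pool.Agent.H69.SFA.Pc
import Pool.Agent.H85.SA.Stm

/-!
# [H63 SFA Cr0] THEOREM SF, clause (4), chapter K3: the certificates of type 0 as codes

`P0 F Z`: a certificate of type 0 of size at most `Z`, given by codes. `sr_p0`: it is recursively enumerable.
`p0_sound : P0 F Z → Cer0 F Z`, `p0_complete : (∃ Z, Cer0 F Z) → ∃ Z, P0 F Z`.
-/

namespace Pool.Agent.H63.SFA

open MvPolynomial Pool.Agent.H8.Siegel Pool.Agent.H69.AL Pool.Agent.H98.AL Pool.Agent.H85.SA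
  Pool.Agent.H69.SFA

/-- the size conditions of type 0 for a witness, all together -/
def Siz0 (F : P2) (Z : ℕ) (w : Wit) : Prop :=
  (w.2.2.2 ^ (mxC w.1 + 1) ≤ Z ∧ w.2.1.1 ≤ Z ∧ w.2.1.2.1 ≤ Z ∧ w.2.1.2.2.1 ≤ Z ∧ w.2.1.2.2.2 ≤ Z) ∧
    (mxC w.1 ≤ Z ∧ smC w.1 ≤ Z) ∧
    ((shf w.2.1.1 F).totalDegree ≤ Z ∧ (∀ t, |coeff t (shf w.2.1.1 F)| ≤ (Z : ℤ))) ∧
    ((toPoly w.2.2.1.2.2).totalDegree ≤ Z ∧ ∀ t, |coeff t (toPoly w.2.2.1.2.2)| ≤ (Z : ℤ))

/-- a certificate of type 0 of size at most `Z`, given by codes -/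
def P0 (F : P2) (Z : ℕ) : Prop :=
  ∃ w : Wit, (noRealC w.1 w.2.2.2 ∧ CertP 1 (uni w.1) w.2.1.1 w.2.1.2.1 w.2.1.2.2.1 w.2.1.2.2.2
    (toPoly w.2.2.1.1) (toPoly w.2.2.1.2.1) (toPoly w.2.2.1.2.2) F) ∧ Siz0 F Z w

theorem p0_sound {F : P2} {Z : ℕ} (h : P0 F Z) : Cer0 F Z := by
  obtain ⟨⟨p, ⟨c, s, e, m⟩, ⟨N, Q, R⟩, g⟩, ⟨h1, h2⟩, ⟨h3, h4, h5, h6, h7⟩, ⟨h8, h9⟩, ⟨h10, h11⟩,
    h12, h13⟩ := h
  refine ⟨uni p, c, s, e, m, toPoly N, toPoly Q, toPoly R, h2, fun r => ?_, h4, h5, h6, h7,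
    ⟨(natDegree_uni_le p _ le_rfl).trans h8, (sum_coeff_le p _).trans (by exact_mod_cast h9)⟩,
    h10, h11, h12, h13⟩
  have h := noRealC_low p g h1 r
  have h3' : ((g ^ (mxC p + 1) : ℕ) : ℝ) ≤ (Z : ℝ) := Nat.cast_le.2 h3
  exact h.trans (mul_le_mul_of_nonneg_right h3' (abs_nonneg _))

/-- a common bound for the absolute values of the coefficients -/
theorem exists_height (F : P2) : ∃ H : ℕ, ∀ t, |coeff t F| ≤ (H : ℤ) := by
  obtain ⟨c, rfl⟩ := exists_code F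
  exact ⟨htC c, (htC_le c _).1 le_rfl⟩

theorem p0_complete {F : P2} (h : ∃ Z, Cer0 F Z) : ∃ Z, P0 F Z := by
  obtain ⟨_, p, c, s, e, m, N, Q, R, h1, -⟩ := h
  obtain ⟨p', rfl⟩ := exists_uni p
  obtain ⟨N', rfl⟩ := exists_code N
  obtain ⟨Q', rfl⟩ := exists_code Q
  obtain ⟨R', rfl⟩ := exists_code R
  obtain ⟨g, hg⟩ := noRealC_complete p' h1.nr
  obtain ⟨H1, hH1⟩ := exists_height (shf c F)
  obtain ⟨H2, hH2⟩ := exists_height (toPoly R')
  refine ⟨g ^ (mxC p' + 1) + c + s + e + m + mxC p' + smC p' + (shf c F).totalDegree + H1 +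
    (toPoly R').totalDegree + H2, (p', (c, s, e, m), (N', Q', R'), g), ⟨hg, h1⟩,
    ⟨by dsimp only; omega, by dsimp only; omega, by dsimp only; omega, by dsimp only; omega,
      by dsimp only; omega⟩, ⟨by dsimp only; omega, by dsimp only; omega⟩,
    ⟨by dsimp only; omega, fun t => (hH1 t).trans ?_⟩, ⟨by dsimp only; omega,
      fun t => (hH2 t).trans ?_⟩⟩
  · exact_mod_cast (by omega : H1 ≤ _)
  · exact_mod_cast (by omega : H2 ≤ _)

theorem p0_mono {F : P2} {Z Z' : ℕ} (hZ : Z ≤ Z') (h : P0 F Z) : P0 F Z' := by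
  obtain ⟨w, h1, ⟨h3, h4, h5, h6, h7⟩, ⟨h8, h9⟩, ⟨h10, h11⟩, h12, h13⟩ := h
  have hZ' : (Z : ℤ) ≤ Z' := by exact_mod_cast hZ
  exact ⟨w, h1, ⟨h3.trans hZ, h4.trans hZ, h5.trans hZ, h6.trans hZ, h7.trans hZ⟩,
    ⟨h8.trans hZ, h9.trans hZ⟩, ⟨h10.trans hZ, fun t => (h11 t).trans hZ'⟩, h12.trans hZ,
    fun t => (h13 t).trans hZ'⟩

variable {α : Type*} [Primcodable α]

theorem sr_p0 {F : α → P2} (hF : PC F) {Z : α → ℕ} (hZ : Primrec Z) :
    SR fun a => P0 (F a) (Z a) := by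
  obtain ⟨f, hf, hfF⟩ := hF
  have hw : Primrec fun p : α × Wit => p.2 := Primrec.snd
  have hfa : Primrec fun p : α × Wit => f p.1 := hf.comp Primrec.fst
  have hZa : Primrec fun p : α × Wit => Z p.1 := hZ.comp Primrec.fst
  have hp : Primrec fun p : α × Wit => p.2.1 := Primrec.fst.comp hw
  have h1 : Primrec fun p : α × Wit => p.2.2.1 := Primrec.fst.comp (Primrec.snd.comp hw)
  have h2 : Primrec fun p : α × Wit => p.2.2.2.1 :=
    Primrec.fst.comp (Primrec.snd.comp (Primrec.snd.comp hw))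
  have hg : Primrec fun p : α × Wit => p.2.2.2.2 :=
    Primrec.snd.comp (Primrec.snd.comp (Primrec.snd.comp hw))
  have hc : Primrec fun p : α × Wit => p.2.2.1.1 := Primrec.fst.comp h1
  have hs : Primrec fun p : α × Wit => p.2.2.1.2.1 := Primrec.fst.comp (Primrec.snd.comp h1)
  have he : Primrec fun p : α × Wit => p.2.2.1.2.2.1 :=
    Primrec.fst.comp (Primrec.snd.comp (Primrec.snd.comp h1))
  have hm : Primrec fun p : α × Wit => p.2.2.1.2.2.2 :=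
    Primrec.snd.comp (Primrec.snd.comp (Primrec.snd.comp h1))
  have hR : Primrec fun p : α × Wit => p.2.2.2.1.2.2 := Primrec.snd.comp (Primrec.snd.comp h2)
  have le : ∀ {u : α × Wit → ℕ}, Primrec u → PrimrecPred fun p : α × Wit => u p ≤ Z p.1 :=
    fun hu => PrimrecRel.comp Primrec.nat_le hu hZa
  have hcert : PrimrecPred fun p : α × Wit => Cert [(1, 0, 0, 0)] (f p.1) p.2 :=
    primrec_Cert (Primrec.const _) hfa hw
  have hmx : Primrec fun p : α × Wit => mxC p.2.1 := primrec_mxC.comp hp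
  have hsm : Primrec fun p : α × Wit => smC p.2.1 := primrec_smC.comp hp
  have hpw : Primrec fun p : α × Wit => p.2.2.2.2 ^ (mxC p.2.1 + 1) :=
    primrec_pow.comp hg (Primrec.succ.comp hmx)
  have hsh : PC fun p : α × Wit => shf p.2.2.1.1 (toPoly (f p.1)) := (PC.code hfa).shf hc
  have hRR : PC fun p : α × Wit => toPoly p.2.2.2.1.2.2 := PC.code hR
  have hsiz : PrimrecPred fun p : α × Wit => Siz0 (toPoly (f p.1)) (Z p.1) p.2 := by
    unfold Siz0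
    exact ((le hpw).and ((le hc).and ((le hs).and ((le he).and (le hm))))).and
      (((le hmx).and (le hsm)).and (((le hsh.totalDegree).and (hsh.height hZa)).and
        ((le hRR.totalDegree).and (hRR.height hZa))))
  refine SR.mk' (γ := Wit) (R := fun a w => Cert [(1, 0, 0, 0)] (f a) w ∧
    Siz0 (toPoly (f a)) (Z a) w) (hcert.and hsiz) fun a => ?_
  unfold P0
  refine exists_congr fun w => and_congr ?_ (by rw [hfF])
  rw [Cert, certC_iff, uni_one, hfF]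

end Pool.Agent.H63.SFA
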