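import Pool.Agent.H69.SFA.Lst

/-!
# [H63 SFA Low] THEOREM SF, clause (4), chapter K3: a lower bound for a polynomial without real zeros

`noRealC_low`: the certificate `noRealC p g` gives `1 ≤ g^(mxC p + 1) |p(z)|` for all real `z`.
-/

namespace Pool.Agent.H63.SFA

open MvPolynomial Pool.Agent.H8.Siegel Pool.Agent.H69.AL Pool.Agent.H98.AL

/-- outside of the disc of radius `smC c + 1` the values are at least `1` -/
theorem one_le_far (c : Code) (hc : uni c ≠ 0) (z : ℝ) (hz : ((smC c + 1 : ℕ) : ℝ) ≤ |z|) :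
    1 ≤ |Polynomial.aeval z (uni c)| := by
  set f := uni c with hf
  set d := f.natDegree with hd
  have hS : (smC c : ℝ) ≤ |z| - 1 := by
    push_cast at hz
    linarith
  have h1 : Polynomial.aeval z f = (∑ i ∈ Finset.range d, ((f.coeff i : ℤ) : ℝ) * z ^ i) +
      ((f.coeff d : ℤ) : ℝ) * z ^ d := by
    rw [Polynomial.aeval_eq_sum_range, Finset.sum_range_succ]
    simp only [zsmul_eq_mul]
    rfl
  have h2 : |∑ i ∈ Finset.range d, ((f.coeff i : ℤ) : ℝ) * z ^ i| ≤ |z| ^ d - 1 := by
    calc |∑ i ∈ Finset.range d, ((f.coeff i : ℤ) : ℝ) * z ^ i|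
        ≤ ∑ i ∈ Finset.range d, |((f.coeff i : ℤ) : ℝ) * z ^ i| := Finset.abs_sum_le_sum_abs _ _
      _ ≤ ∑ i ∈ Finset.range d, (|z| - 1) * |z| ^ i := by
          refine Finset.sum_le_sum fun i _ => ?_
          rw [abs_mul, abs_pow]
          refine mul_le_mul_of_nonneg_right ?_ (by positivity)
          refine le_trans ?_ hS
          have := abs_coeff_uni_le c i
          rw [← hf] at this
          have h3 : ((|f.coeff i| : ℤ) : ℝ) ≤ ((smC c : ℤ) : ℝ) := Int.cast_le.2 this
          rw [Int.cast_abs] at h3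
          exact h3.trans (le_of_eq (Int.cast_natCast _))
      _ = |z| ^ d - 1 := by
          rw [← Finset.mul_sum, mul_comm, geom_sum_mul]
  have h3 : |z| ^ d ≤ |((f.coeff d : ℤ) : ℝ) * z ^ d| := by
    rw [abs_mul, abs_pow]
    have h4 : 1 ≤ |f.coeff d| := Int.one_le_abs (Polynomial.leadingCoeff_ne_zero.2 hc)
    have h5 : (1 : ℝ) ≤ |((f.coeff d : ℤ) : ℝ)| := by
      rw [← Int.cast_abs]
      exact_mod_cast h4
    nlinarith [pow_nonneg (abs_nonneg z) d]
  rw [h1]
  have h6 := abs_sub_abs_le_abs_sub (((f.coeff d : ℤ) : ℝ) * z ^ d)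
    (-(∑ i ∈ Finset.range d, ((f.coeff i : ℤ) : ℝ) * z ^ i))
  rw [abs_neg, sub_neg_eq_add, add_comm (((f.coeff d : ℤ) : ℝ) * z ^ d)] at h6
  linarith

/-- the quantitative form of `noRealC_sound` -/
theorem noRealC_low (p : Code) (g : ℕ) (h : noRealC p g) (z : ℝ) :
    1 ≤ ((g ^ (mxC p + 1) : ℕ) : ℝ) * |Polynomial.aeval z (uni p)| := by
  obtain ⟨hg, h⟩ := h
  have hg' : (0 : ℝ) < g := by exact_mod_cast hg
  have hg1 : (1 : ℝ) ≤ g := by exact_mod_cast hg
  set M : ℕ := smC p + 1 with hM
  set L : ℕ := smC p * mxC p * M ^ mxC p with hL0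
  have hp : uni p ≠ 0 := by
    intro h0
    have h1 := (h 0 (by simp)).1
    have h2 := absV_hom p (mxC p) le_rfl (0, 0) (g, 0) (by simp [iv]; omega)
    rw [h0, map_zero, abs_zero, mul_zero] at h2
    have h3 : absV (homC (mxC p) p) (0, 0) (g, 0) = 0 := by exact_mod_cast h2
    rw [vlC, h3, mul_zero] at h1
    omega
  rcases le_total (M : ℝ) |z| with hfar | hzM
  · have h1 := one_le_far p hp z hfar
    have h2 : (1 : ℝ) ≤ ((g ^ (mxC p + 1) : ℕ) : ℝ) := by
      push_cast
      exact one_le_pow₀ hg1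
    nlinarith
  -- the values at the points of the grid
  have grid : ∀ (v : ℕ × ℕ) (u : ℝ), u = (iv v : ℝ) / g → lpC p g < vlC p g v →
      (L : ℝ) * g ^ mxC p + 1 ≤ (g : ℝ) ^ (mxC p + 1) * |Polynomial.aeval u (uni p)| := by
    intro v u hu hlt
    have h1 : iv (g, 0) = (g : ℤ) := by simp [iv]
    have h2 := absV_hom p (mxC p) le_rfl v (g, 0) (by rw [h1]; exact_mod_cast hg.ne')
    rw [h1] at h2
    have h3 : |((g : ℤ) : ℝ)| = g := by
      push_cast
      exact abs_of_pos hg'
    have h4 : (((g : ℤ) : ℤ) : ℝ) = (g : ℝ) := by push_cast; rfl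
    rw [h3, h4, ← hu] at h2
    have h5 : lpC p g + 1 ≤ vlC p g v := hlt
    have h6 : ((lpC p g + 1 : ℕ) : ℝ) ≤ ((vlC p g v : ℕ) : ℝ) := Nat.cast_le.2 h5
    rw [lpC, vlC] at h6
    push_cast at h6
    rw [h2] at h6
    rw [hL0, hM]
    push_cast
    calc (smC p : ℝ) * mxC p * (smC p + 1) ^ mxC p * g ^ mxC p + 1 ≤ _ := h6
      _ = _ := by ring
  set i : ℕ := ⌊|z| * g⌋₊ with hi
  have hnn : 0 ≤ |z| * g := by positivity
  have hi1 : (i : ℝ) ≤ |z| * g := Nat.floor_le hnn
  have hi2 : |z| * g < i + 1 := Nat.lt_floor_add_one _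
  have hiM : i ≤ M * g := by
    have : (i : ℝ) ≤ ((M * g : ℕ) : ℝ) := by
      push_cast
      exact hi1.trans (mul_le_mul_of_nonneg_right hzM hg'.le)
    exact_mod_cast this
  have hh := h i (List.mem_range.2 (by omega))
  have key : ∀ u : ℝ, |u| = i / g → |z - u| < 1 / g →
      (L : ℝ) * g ^ mxC p + 1 ≤ (g : ℝ) ^ (mxC p + 1) * |Polynomial.aeval u (uni p)| →
      1 ≤ ((g ^ (mxC p + 1) : ℕ) : ℝ) * |Polynomial.aeval z (uni p)| := by
    intro u hu hzu hlt
    have huM : |u| ≤ (M : ℝ) := by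
      rw [hu, div_le_iff₀ hg']
      exact_mod_cast hiM
    have hL := lip p (mxC p) M le_rfl (by omega) z u hzM huM
    rw [← hL0] at hL
    have h8 : (0 : ℝ) ≤ (L : ℝ) := Nat.cast_nonneg _
    have h9 : (g : ℝ) ^ (mxC p + 1) *
        |Polynomial.aeval z (uni p) - Polynomial.aeval u (uni p)| ≤ L * g ^ mxC p := by
      calc (g : ℝ) ^ (mxC p + 1) * |Polynomial.aeval z (uni p) - Polynomial.aeval u (uni p)|
          ≤ (g : ℝ) ^ (mxC p + 1) * (L * |z - u|) :=
            mul_le_mul_of_nonneg_left hL (by positivity)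
        _ = (L * g ^ mxC p) * (g * |z - u|) := by ring
        _ ≤ (L * g ^ mxC p) * 1 := by
            refine mul_le_mul_of_nonneg_left ?_ (by positivity)
            have := mul_le_mul_of_nonneg_left hzu.le hg'.le
            rwa [mul_one_div, div_self hg'.ne'] at this
        _ = _ := mul_one _
    have h10 : |Polynomial.aeval u (uni p)| ≤ |Polynomial.aeval z (uni p)| +
        |Polynomial.aeval z (uni p) - Polynomial.aeval u (uni p)| := by
      have := abs_sub_abs_le_abs_sub (Polynomial.aeval u (uni p)) (Polynomial.aeval z (uni p))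
      rw [abs_sub_comm] at this
      linarith
    have h11 := mul_le_mul_of_nonneg_left h10 (by positivity : (0 : ℝ) ≤ (g : ℝ) ^ (mxC p + 1))
    push_cast
    rw [mul_add] at h11
    linarith
  have hd : |(|z| - i / g)| < 1 / g := by
    rw [abs_lt]
    constructor
    · have : (i : ℝ) / g ≤ |z| := by rw [div_le_iff₀ hg']; exact hi1
      have h1 : (0 : ℝ) < 1 / g := by positivity
      linarith
    · have : |z| < (i + 1) / g := by rw [lt_div_iff₀ hg']; exact hi2
      rw [add_div] at this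
      linarith
  rcases le_total 0 z with hz0 | hz0
  · refine key (i / g) (abs_of_nonneg (by positivity)) ?_ (grid (i, 0) _ ?_ hh.1)
    · rw [abs_of_nonneg hz0] at hd
      exact hd
    · simp [iv]
  · refine key (-(i / g)) ?_ ?_ (grid (0, i) _ ?_ hh.2)
    · rw [abs_neg]
      exact abs_of_nonneg (by positivity)
    · rw [abs_of_nonpos hz0] at hd
      rw [← abs_neg]
      have : -(z - -((i : ℝ) / g)) = -z - i / g := by ring
      rw [this]
      exact hd
    · simp [iv, neg_div]

/-- the sum of the absolute values of the coefficients -/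
theorem sum_coeff_le (c : Code) (n : ℕ) :
    ∑ i ∈ Finset.range n, |(uni c).coeff i| ≤ (smC c : ℤ) := by
  induction c with
  | nil => simp [smC]
  | cons t c ih =>
    have h1 : ∑ i ∈ Finset.range n, |(uterm t).coeff i| ≤ ((t.1 + t.2.1 : ℕ) : ℤ) := by
      simp only [coeff_uterm]
      by_cases h : t.2.2.1 < n
      · rw [Finset.sum_eq_single_of_mem t.2.2.1 (Finset.mem_range.2 h)
          (fun i _ hi => by rw [if_neg (Ne.symm hi), abs_zero]), if_pos rfl]
        exact abs_sub_le _ _
      · rw [Finset.sum_eq_zero]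
        · positivity
        · intro i hi
          have := Finset.mem_range.1 hi
          rw [if_neg (by omega), abs_zero]
    calc ∑ i ∈ Finset.range n, |(uni (t :: c)).coeff i|
        ≤ ∑ i ∈ Finset.range n, (|(uterm t).coeff i| + |(uni c).coeff i|) :=
          Finset.sum_le_sum fun i _ => by
            rw [uni_cons, Polynomial.coeff_add]
            exact abs_add_le _ _
      _ ≤ ((t.1 + t.2.1 : ℕ) : ℤ) + (smC c : ℤ) := by
          rw [Finset.sum_add_distrib]
          exact add_le_add h1 ih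
      _ = _ := by
          rw [smC_cons]
          push_cast
          ring

end Pool.Agent.H63.SFA
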